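import Pool.Agent.V11299.OV.Net
import Pool.Agent.W765.Uni2

set_option autoImplicit false

open MeasureTheory Filter Topology Set

namespace Pool.Agent.V11299.OV

open Pool.Agent.H705R2

lemma map_pow_inv {p : ℕ} {μ : Measure Circ} (hμ : MeasurePreserving (fun x : Circ => p • x) μ μ)
    (m : ℕ) : μ.map (fun x : Circ => p ^ m • x) = μ := by
  induction m with
  | zero => simp
  | succ m ih =>
    have h1 : (fun x : Circ => p ^ (m + 1) • x) =
        (fun x : Circ => p • x) ∘ (fun x : Circ => p ^ m • x) := by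
      funext x; simp only [Function.comp]; rw [pow_succ', mul_smul]
    rw [h1, ← Measure.map_map (meas_ns p) (meas_ns _), ih, hμ.map_eq]

lemma map_swap {μ : Measure Circ} (a : ℤ) (s : ℕ) :
    (μ.map fun x => a • x).map (fun x => s • x) = (μ.map fun x => s • x).map (fun x => a • x) := by
  rw [Measure.map_map (meas_ns s) (meas_zs a), Measure.map_map (meas_zs a) (meas_ns s)]
  congr 1
  funext x; simp only [Function.comp]; rw [smul_comm]

lemma map_pq {p q : ℕ} {μ : Measure Circ} (hμ : MeasurePreserving (fun x : Circ => p • x) μ μ)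
    (m e : ℕ) : μ.map (fun x : Circ => (p ^ m * q ^ e) • x) = μ.map (fun x : Circ => q ^ e • x) := by
  have h1 : (fun x : Circ => (p ^ m * q ^ e) • x) =
      (fun x : Circ => q ^ e • x) ∘ (fun x : Circ => p ^ m • x) := by
    funext x; simp only [Function.comp]; rw [mul_comm, mul_smul]
  rw [h1, ← Measure.map_map (meas_ns _) (meas_ns _), map_pow_inv hμ]

lemma inv_map_nat {p : ℕ} {μ : Measure Circ} (s : ℕ)
    (hμp : MeasurePreserving (fun x : Circ => p • x) μ μ) :
    MeasurePreserving (fun x : Circ => p • x) (μ.map fun x => s • x) (μ.map fun x => s • x) := by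
  have h := map_inv (s : ℤ) hμp
  simpa only [natCast_zsmul] using h

open Classical in
/-- The uniform theorem for `×p`-invariant measures, parts of which are carried to each other by an
affine relation with translation part `t`. -/
theorem main {p q : ℕ} (hp : 2 ≤ p) (hq : 2 ≤ q) (h : MulIndep p q) {a : ℤ} (ha : a ≠ 0) (b : ℤ)
    (f : C(Circ, ℝ)) (hf : ∀ x, 0 ≤ f x) {ε δ : ℝ} (hε : 0 < ε) (hδ : 0 < δ) :
    ∃ M : ℕ, ∀ t : Circ, (∀ j : ℕ, (M : ℕ∞) ≤ (range fun m : ℕ => p ^ m • q ^ j • t).encard) →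
      ∀ μ ν : Measure Circ, IsProbabilityMeasure μ → IsProbabilityMeasure ν →
      MeasurePreserving (fun x : Circ => p • x) μ μ →
      MeasurePreserving (fun x : Circ => p • x) ν ν →
      ∀ ρ : Measure (Circ × Circ), ρ.map Prod.fst ≤ μ → ρ.map Prod.snd ≤ ν →
      (∀ᵐ z ∂ρ, b • z.2 - a • z.1 = t) → ∀ s n : ℕ, M ≤ n →
        (((Finset.range n).filter (fun i => ∫ x, f (q ^ (s + i) • x) ∂μ <
          ρ.real univ * (∫ x, f x) - ε)).card : ℝ) ≤ δ * n := by
  obtain ⟨k, hk⟩ := exists_net hp ha b f hf hε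
  have hk0 : (0 : ℝ) < (k : ℝ) + 1 := by positivity
  set r : ℝ := 1 / (2 * ((k : ℝ) + 1)) with hr
  have hr0 : 0 < r := by positivity
  have hr2 : r + r = 1 / ((k : ℝ) + 1) := by rw [hr]; field_simp; ring
  obtain ⟨A0, -, hA0f, hA0⟩ := finite_cover_balls_of_compact (isCompact_univ (X := Circ)) hr0
  set A : Finset Circ := hA0f.toFinset with hA
  have hAcov : ∀ τ : Circ, ∃ c ∈ A, dist τ c < r := by
    intro τ
    have := hA0 (mem_univ τ)
    rw [mem_iUnion₂] at this
    obtain ⟨c, hc, hc2⟩ := this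
    exact ⟨c, by rwa [hA, Set.Finite.mem_toFinset], hc2⟩
  have hAne : 0 < A.card := by
    obtain ⟨c, hc, -⟩ := hAcov 0
    exact Finset.card_pos.2 ⟨c, hc⟩
  have hAR : (0 : ℝ) < A.card := by exact_mod_cast hAne
  have hδ' : 0 < δ / A.card := by positivity
  choose M hM using fun c : Circ => Pool.Agent.W765.Det.uniform_orbit hp hq h
    (Metric.isOpen_ball (x := c) (ε := r)) (Metric.nonempty_ball.2 hr0) hδ'
  refine ⟨A.sup M, fun t ht μ ν hμ hν hμp hνp ρ h1 h2 h3 s n hn => ?_⟩
  have hρu : ρ univ ≤ 1 := by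
    have h4 := h1 univ
    rw [Measure.map_apply measurable_fst MeasurableSet.univ] at h4
    simpa using h4
  have hρf : IsFiniteMeasure ρ := ⟨hρu.trans_lt ENNReal.one_lt_top⟩
  have hc1 : ρ.real univ ≤ 1 := by
    rw [Measure.real]
    exact ENNReal.toReal_le_of_le_ofReal zero_le_one (by simpa using hρu)
  have hov := ov_of_coupling h1 h2 h3
  have hsub : (Finset.range n).filter (fun i => ∫ x, f (q ^ (s + i) • x) ∂μ <
        ρ.real univ * (∫ x, f x) - ε) ⊆
      A.biUnion fun c => (Finset.range n).filter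
        (fun i => ∀ m : ℕ, p ^ m • q ^ (s + i) • t ∉ Metric.ball c r) := by
    intro i hi
    rw [Finset.mem_filter] at hi
    obtain ⟨hi1, hi2⟩ := hi
    rw [Finset.mem_biUnion]
    by_contra hcon
    push Not at hcon
    have hcon' : ∀ c ∈ A, ∃ m : ℕ, p ^ m • q ^ (s + i) • t ∈ Metric.ball c r := by
      intro c hc
      have := hcon c hc
      rw [Finset.mem_filter] at this
      push Not at this
      exact this hi1
    have hnet : ∀ τ : Circ, ∃ t' : Circ, dist t' τ < 1 / ((k : ℝ) + 1) ∧
        Ov (ρ.real univ) ((μ.map fun x => q ^ (s + i) • x).map fun x => a • x)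
          ((ν.map fun x => q ^ (s + i) • x).map fun x => b • x) t' := by
      intro τ
      obtain ⟨c, hc, hc2⟩ := hAcov τ
      obtain ⟨m, hm⟩ := hcon' c hc
      refine ⟨p ^ m • q ^ (s + i) • t, ?_, ?_⟩
      · rw [Metric.mem_ball] at hm
        calc dist (p ^ m • q ^ (s + i) • t) τ ≤ dist (p ^ m • q ^ (s + i) • t) c + dist c τ :=
              dist_triangle _ _ _
          _ < r + r := add_lt_add hm (by rwa [dist_comm])
          _ = _ := hr2
      · have h5 := ov_nsmul hov (p ^ m * q ^ (s + i))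
        rw [map_swap, map_swap, map_pq hμp, map_pq hνp, mul_smul] at h5
        exact h5
    have hP : IsProbabilityMeasure (μ.map fun x => q ^ (s + i) • x) :=
      Measure.isProbabilityMeasure_map (meas_ns _).aemeasurable
    have hQ : IsProbabilityMeasure (ν.map fun x => q ^ (s + i) • x) :=
      Measure.isProbabilityMeasure_map (meas_ns _).aemeasurable
    have h6 := hk _ _ hP hQ (inv_map_nat _ hμp) (ρ.real univ) measureReal_nonneg hc1 hnet
    rw [integral_map (meas_ns _).aemeasurable f.continuous.aestronglyMeasurable] at h6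
    linarith
  have hcard : ∀ c ∈ A, (((Finset.range n).filter
      (fun i => ∀ m : ℕ, p ^ m • q ^ (s + i) • t ∉ Metric.ball c r)).card : ℝ) ≤
        δ / A.card * n := by
    intro c hc
    have hMc : M c ≤ A.sup M := Finset.le_sup hc
    exact hM c t (fun j => le_trans (by exact_mod_cast hMc) (ht j)) s n (hMc.trans hn)
  calc (((Finset.range n).filter (fun i => ∫ x, f (q ^ (s + i) • x) ∂μ <
          ρ.real univ * (∫ x, f x) - ε)).card : ℝ)
      ≤ ((A.biUnion fun c => (Finset.range n).filter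
        (fun i => ∀ m : ℕ, p ^ m • q ^ (s + i) • t ∉ Metric.ball c r)).card : ℝ) := by
        exact_mod_cast Finset.card_le_card hsub
    _ ≤ ∑ c ∈ A, (((Finset.range n).filter
        (fun i => ∀ m : ℕ, p ^ m • q ^ (s + i) • t ∉ Metric.ball c r)).card : ℝ) := by
        exact_mod_cast Finset.card_biUnion_le
    _ ≤ ∑ c ∈ A, δ / A.card * n := Finset.sum_le_sum hcard
    _ = δ * n := by
        rw [Finset.sum_const, nsmul_eq_mul]; field_simp

end Pool.Agent.V11299.OV
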