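import Mathlib

set_option autoImplicit false

open Filter Topology Set

namespace Pool.Agent.V11299.OV

lemma step_pos {P Q : ℕ} (hQ : 2 ≤ Q) {m n : ℕ} {v θ : ℝ}
    (hv : v = m * Real.log P - n * Real.log Q) (hv0 : 0 < v) (hvθ : v ≤ θ) :
    ∃ X0 : ℝ, ∀ X, X0 ≤ X → ∃ i j : ℕ, Real.log X ≤ i * Real.log P + j * Real.log Q ∧
      i * Real.log P + j * Real.log Q ≤ Real.log X + θ := by
  set L := Real.log Q with hL
  have hL0 : 0 < L := Real.log_pos (by exact_mod_cast (by omega : 1 < Q))
  set N0 : ℕ := ⌈n * (L / v + 2)⌉₊ with hN0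
  refine ⟨Real.exp (N0 * L) + 1, fun X hX => ?_⟩
  have hXpos : 0 < X := lt_of_lt_of_le (by positivity) hX
  have hlog : N0 * L ≤ Real.log X := by
    rw [Real.le_log_iff_exp_le hXpos]; linarith
  set N : ℕ := ⌊Real.log X / L⌋₊ with hN
  have hlog0 : 0 ≤ Real.log X := le_trans (by positivity) hlog
  have hNN0 : N0 ≤ N := by
    rw [hN]
    apply Nat.le_floor
    rw [le_div_iff₀ hL0]; exact hlog
  have hr0 : (N : ℝ) * L ≤ Real.log X := by
    have := Nat.floor_le (div_nonneg hlog0 hL0.le)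
    rw [le_div_iff₀ hL0] at this; exact this
  have hr1 : Real.log X < (N : ℝ) * L + L := by
    have := Nat.lt_floor_add_one (Real.log X / L)
    rw [div_lt_iff₀ hL0] at this
    rw [← hN] at this
    linarith
  set r := Real.log X - N * L with hr
  set j : ℕ := ⌈r / v⌉₊ with hj
  have hj1 : r ≤ j * v := by
    have := Nat.le_ceil (r / v)
    rw [div_le_iff₀ hv0] at this; exact this
  have hrnn : 0 ≤ r / v := div_nonneg (by rw [hr]; linarith) hv0.le
  have hj2 : (j : ℝ) < r / v + 1 := Nat.ceil_lt_add_one hrnn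
  have hj3 : (j : ℝ) * v < r + v := by
    have := mul_lt_mul_of_pos_right hj2 hv0
    rw [add_mul, div_mul_cancel₀ _ hv0.ne', one_mul] at this
    exact this
  have hj4 : n * j ≤ N := by
    have h1 : (j : ℝ) ≤ L / v + 2 := by
      have h2 : r / v ≤ L / v := div_le_div_of_nonneg_right (by rw [hr]; linarith) hv0.le
      linarith
    have h2 : ((n * j : ℕ) : ℝ) ≤ N0 := by
      push_cast
      exact (mul_le_mul_of_nonneg_left h1 (by positivity)).trans (Nat.le_ceil _)
    have h3 : n * j ≤ N0 := by exact_mod_cast h2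
    omega
  refine ⟨m * j, N - n * j, ?_, ?_⟩
  · push_cast [Nat.cast_sub hj4]
    have : (m : ℝ) * j * Real.log P + (N - n * j) * L = N * L + j * v := by rw [hv]; ring
    rw [this]; linarith
  · push_cast [Nat.cast_sub hj4]
    have : (m : ℝ) * j * Real.log P + (N - n * j) * L = N * L + j * v := by rw [hv]; ring
    rw [this]; linarith

/-- The numbers `p ^ i * q ^ j` have ratios tending to one. -/
lemma gap {p q : ℕ} (hp : 2 ≤ p) (hq : 2 ≤ q) (hirr : Irrational (Real.log p / Real.log q)) {θ : ℝ}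
    (hθ : 0 < θ) : ∃ X0 : ℝ, 0 < X0 ∧ ∀ X, X0 ≤ X → ∃ i j : ℕ, X ≤ ((p ^ i * q ^ j : ℕ) : ℝ) ∧
      ((p ^ i * q ^ j : ℕ) : ℝ) ≤ X * Real.exp θ := by
  have hlp : 0 < Real.log p := Real.log_pos (by exact_mod_cast (by omega : 1 < p))
  have hlq : 0 < Real.log q := Real.log_pos (by exact_mod_cast (by omega : 1 < q))
  obtain ⟨K, hK⟩ := exists_nat_gt (Real.log q / θ)
  obtain ⟨k, hk0, hkK, hk⟩ := Real.exists_nat_abs_mul_sub_round_le (Real.log p / Real.log q)
    (n := K + 1) (by omega)
  set ξ := Real.log p / Real.log q with hξ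
  have hξ0 : 0 < ξ := div_pos hlp hlq
  have hrn : 0 ≤ round ((k : ℝ) * ξ) := by
    rw [round_eq]
    apply Int.floor_nonneg.2
    positivity
  obtain ⟨l, hl⟩ := Int.eq_ofNat_of_zero_le hrn
  have hval : (k : ℝ) * Real.log p - l * Real.log q = ((k : ℝ) * ξ - l) * Real.log q := by
    rw [hξ]; field_simp
  have hl' : ((round ((k : ℝ) * ξ) : ℤ) : ℝ) = l := by rw [hl]; simp
  rw [hl'] at hk
  have hne : (k : ℝ) * ξ - l ≠ 0 := by
    intro h0
    apply hirr
    refine ⟨(l : ℚ) / k, ?_⟩
    push_cast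
    have hkR : (k : ℝ) ≠ 0 := by exact_mod_cast hk0.ne'
    rw [div_eq_iff hkR]
    linarith
  have hsmall : |(k : ℝ) * ξ - l| * Real.log q ≤ θ := by
    have h1 : |(k : ℝ) * ξ - l| * Real.log q ≤ 1 / ((K + 1 : ℕ) + 1 : ℝ) * Real.log q :=
      mul_le_mul_of_nonneg_right hk hlq.le
    refine h1.trans ?_
    rw [one_div, inv_mul_le_iff₀ (by positivity)]
    rw [div_lt_iff₀ hθ] at hK
    push_cast
    nlinarith
  have key : ∃ X0 : ℝ, ∀ X, X0 ≤ X → ∃ i j : ℕ, Real.log X ≤ i * Real.log p + j * Real.log q ∧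
      i * Real.log p + j * Real.log q ≤ Real.log X + θ := by
    rcases lt_or_gt_of_ne hne with hneg | hpos
    · obtain ⟨X0, hX0⟩ := step_pos (P := q) (Q := p) hp (m := l) (n := k)
        (v := l * Real.log q - k * Real.log p) (θ := θ) rfl
        (by
          have : (l : ℝ) * Real.log q - k * Real.log p = -(((k : ℝ) * ξ - l) * Real.log q) := by
            rw [← hval]; ring
          rw [this]
          have := mul_neg_of_neg_of_pos hneg hlq
          linarith)
        (by
          have : (l : ℝ) * Real.log q - k * Real.log p = -(((k : ℝ) * ξ - l) * Real.log q) := by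
            rw [← hval]; ring
          rw [this]
          rw [abs_of_neg hneg] at hsmall
          linarith)
      refine ⟨X0, fun X hX => ?_⟩
      obtain ⟨i, j, h1, h2⟩ := hX0 X hX
      exact ⟨j, i, by linarith, by linarith⟩
    · obtain ⟨X0, hX0⟩ := step_pos (P := p) (Q := q) hq (m := k) (n := l)
        (v := k * Real.log p - l * Real.log q) (θ := θ) rfl
        (by rw [hval]; exact mul_pos hpos hlq)
        (by rw [hval]; rw [abs_of_pos hpos] at hsmall; exact hsmall)
      exact ⟨X0, hX0⟩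
  obtain ⟨X0, hX0⟩ := key
  refine ⟨max X0 1, by positivity, fun X hX => ?_⟩
  have hX1 : 0 < X := lt_of_lt_of_le (by positivity) hX
  obtain ⟨i, j, h1, h2⟩ := hX0 X ((le_max_left _ _).trans hX)
  have hpos : (0 : ℝ) < ((p ^ i * q ^ j : ℕ) : ℝ) := by
    have : 0 < p ^ i * q ^ j := by positivity
    exact_mod_cast this
  have hlog : Real.log ((p ^ i * q ^ j : ℕ) : ℝ) = i * Real.log p + j * Real.log q := by
    push_cast
    rw [Real.log_mul (by positivity) (by positivity), Real.log_pow, Real.log_pow]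
  refine ⟨i, j, ?_, ?_⟩
  · rw [← hlog] at h1
    exact (Real.log_le_log_iff hX1 hpos).1 h1
  · rw [← hlog] at h2
    have h3 : Real.log (X * Real.exp θ) = Real.log X + θ := by
      rw [Real.log_mul hX1.ne' (Real.exp_pos _).ne', Real.log_exp]
    rw [← h3] at h2
    exact (Real.log_le_log_iff hpos (by positivity)).1 h2

end Pool.Agent.V11299.OV
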