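import Pool.Agent.V11299.OV.Main
import Pool.Agent.V11299.OV.Gap

set_option autoImplicit false

open MeasureTheory Filter Topology Set

namespace Pool.Agent.V11299.OV

open Pool.Agent.H705R2

/-- Dual form of: a part of mass `c` of `μ` can be carried into `ν` by the translations `w i`. -/
def OvJ {J : ℕ} (c : ℝ) (μ ν : Measure Circ) (w : Fin J → Circ) : Prop :=
  ∀ g h : C(Circ, ℝ), (∀ x, 0 ≤ g x) → (∀ x, 0 ≤ h x) → (∀ x i, 1 ≤ g x + h (x + w i)) →
    c ≤ ∫ x, g x ∂μ + ∫ x, h x ∂ν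

lemma ae_null_shift {ν : Measure Circ} [IsProbabilityMeasure ν] {E : Set Circ}
    (hE : MeasurableSet E) (h0 : (volume : Measure Circ) E = 0) :
    ∀ᵐ t : Circ, ν ((fun x => x - t) ⁻¹' E) = 0 := by
  have hS : MeasurableSet {z : Circ × Circ | z.2 - z.1 ∈ E} := (measurable_snd.sub measurable_fst) hE
  have h1 : ((volume : Measure Circ).prod ν) {z : Circ × Circ | z.2 - z.1 ∈ E} = 0 := by
    rw [Measure.prod_apply_symm hS]
    have h2 : ∀ y : Circ, (volume : Measure Circ) ((fun x => (x, y)) ⁻¹' {z : Circ × Circ | z.2 - z.1 ∈ E}) = 0 := by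
      intro y
      have h3 := (Measure.measurePreserving_sub_left (volume : Measure Circ) y).measure_preimage
        hE.nullMeasurableSet
      rw [h0] at h3
      exact h3
    rw [lintegral_congr h2]; simp
  exact (Measure.measure_prod_null hS).1 h1

lemma exists_null_shifts {ν : Measure Circ} [IsProbabilityMeasure ν] {E : Set Circ}
    (hE : MeasurableSet E) (h0 : (volume : Measure Circ) E = 0) {J : ℕ} {w : Fin J → ℝ}
    (hw : ∀ i, 0 < w i) :
    ∃ σ : ℝ, 0 < σ ∧ σ < 1 ∧ ∀ i, ν ((fun x => x - ((σ * w i : ℝ) : Circ)) ⁻¹' E) = 0 := by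
  obtain ⟨N, hN, hNm, hN0⟩ := exists_measurable_superset_of_null (ae_iff.1 (ae_null_shift (ν := ν) hE h0))
  have h1 := volume_preimage_coe hNm hN0
  have h2 : ∀ i, volume {σ : ℝ | ((σ * w i : ℝ) : Circ) ∈ N} = 0 := by
    intro i
    have h3 := Real.volume_preimage_mul_right (hw i).ne' ((fun t : ℝ => (t : Circ)) ⁻¹' N)
    rw [h1, mul_zero] at h3
    exact h3
  have h3 : ∀ᵐ σ : ℝ, ∀ i, ν ((fun x => x - ((σ * w i : ℝ) : Circ)) ⁻¹' E) = 0 := by
    rw [ae_all_iff]
    intro i
    rw [ae_iff]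
    refine measure_mono_null (fun σ hσ => ?_) (h2 i)
    exact hN hσ
  by_contra hcon
  push Not at hcon
  have h4 : Ioo (0 : ℝ) 1 ⊆ {σ : ℝ | ¬ ∀ i, ν ((fun x => x - ((σ * w i : ℝ) : Circ)) ⁻¹' E) = 0} := by
    intro σ hσ h5
    obtain ⟨i, hi⟩ := hcon σ hσ.1 hσ.2
    exact hi (h5 i)
  have h5 := measure_mono_null h4 (ae_iff.1 h3)
  simp at h5

/-- If the overlap along `σ w` is at least `c` for all `σ` then the first measure contains `c` times
Lebesgue measure. -/
lemma vol_leJ {p : ℕ} (hp : 2 ≤ p) {μ ν : Measure Circ} [IsProbabilityMeasure μ]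
    [IsProbabilityMeasure ν] (hμp : MeasurePreserving (fun x : Circ => p • x) μ μ) {c : ℝ}
    {J : ℕ} {w : Fin J → ℝ} (hw : ∀ i, 0 < w i)
    (h : ∀ σ : ℝ, 0 < σ → σ < 1 → OvJ c μ ν (fun i => ((σ * w i : ℝ) : Circ))) :
    ENNReal.ofReal c • (volume : Measure Circ) ≤ μ := by
  obtain ⟨α, hdec, hα1⟩ := exists_alpha hp hμp
  have hαle : α • (volume : Measure Circ) ≤ μ := by
    conv_rhs => rw [hdec]
    exact Measure.le_add_left le_rfl
  have hαt : α ≠ ⊤ := (hα1.trans_lt ENNReal.one_lt_top).ne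
  obtain ⟨s, hs, hs1, hs2⟩ := μ.mutuallySingular_singularPart (volume : Measure Circ)
  obtain ⟨σ, hσ0, hσ1, hσ⟩ := exists_null_shifts (ν := ν) hs.compl hs2 hw
  suffices hc : c ≤ α.toReal by
    calc ENNReal.ofReal c • (volume : Measure Circ) ≤ α • volume := by
          refine Measure.le_iff.2 fun A _ => ?_
          simp only [Measure.smul_apply, smul_eq_mul]
          gcongr
          exact (ENNReal.ofReal_le_iff_le_toReal hαt).2 hc
      _ ≤ μ := hαle
  apply le_of_forall_pos_le_add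
  intro η hη
  have hη2 : ENNReal.ofReal (η / 2) ≠ 0 := by
    simp only [ne_eq, ENNReal.ofReal_eq_zero, not_le]; linarith
  obtain ⟨K, hKs, hK, hKη⟩ := hs.compl.exists_isCompact_sdiff_lt
    (measure_ne_top (μ.singularPart (volume : Measure Circ)) _) hη2
  set L : Set Circ := ⋃ i, (fun x => x - ((σ * w i : ℝ) : Circ)) ⁻¹' K with hL
  have hLc : IsClosed L := isClosed_iUnion_of_finite fun i => hK.isClosed.preimage (by fun_prop)
  have hL0 : ν L = 0 := measure_iUnion_null fun i => measure_mono_null (preimage_mono hKs) (hσ i)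
  obtain ⟨U, hLU, hU, hUη⟩ := L.exists_isOpen_lt_of_lt (μ := ν) (ENNReal.ofReal (η / 2))
    (by rw [hL0]; exact pos_iff_ne_zero.2 hη2)
  obtain ⟨k, hk0, hk1, hk⟩ := exists_continuous_zero_one_of_isClosed hU.isClosed_compl hLc
    (disjoint_compl_left_iff_subset.2 hLU)
  let G : Circ → ℝ := fun x => min 1 (∑ i, (1 - k (x + ((σ * w i : ℝ) : Circ))))
  have hGc : Continuous G := by
    apply continuous_const.min
    exact continuous_finset_sum _ fun i _ => by fun_prop
  have hterm : ∀ x i, 0 ≤ 1 - k (x + ((σ * w i : ℝ) : Circ)) := fun x i => by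
    have := (hk (x + ((σ * w i : ℝ) : Circ))).2; linarith
  have hG0 : ∀ x, 0 ≤ G x := fun x => le_min zero_le_one (Finset.sum_nonneg fun i _ => hterm x i)
  have hov := h σ hσ0 hσ1 ⟨G, hGc⟩ k hG0 (fun x => (hk x).1) (fun x i => by
    show 1 ≤ G x + k (x + ((σ * w i : ℝ) : Circ))
    have h6 : 0 ≤ k (x + ((σ * w i : ℝ) : Circ)) := (hk _).1
    have h7 : 1 - k (x + ((σ * w i : ℝ) : Circ)) ≤ ∑ i, (1 - k (x + ((σ * w i : ℝ) : Circ))) :=
      Finset.single_le_sum (f := fun i => 1 - k (x + ((σ * w i : ℝ) : Circ)))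
        (fun i _ => hterm x i) (Finset.mem_univ i)
    have h8 : 1 - k (x + ((σ * w i : ℝ) : Circ)) ≤ G x := le_min (by linarith) h7
    linarith)
  have b2 : ∫ x, k x ∂ν ≤ η / 2 := by
    have c1 : ∫ x, k x ∂ν ≤ ∫ x, U.indicator (fun _ => (1 : ℝ)) x ∂ν := by
      apply integral_mono (integ k ν) ((integrable_const _).indicator hU.measurableSet)
      intro x
      by_cases hx : x ∈ U
      · simp only [indicator_of_mem hx]; exact (hk x).2
      · simp only [indicator_of_notMem hx]; exact (hk0 hx).le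
    rw [integral_indicator_const _ hU.measurableSet] at c1
    have c2 : ν.real U ≤ η / 2 := by
      rw [Measure.real, ← ENNReal.toReal_ofReal (by linarith : 0 ≤ η / 2)]
      exact ENNReal.toReal_mono ENNReal.ofReal_ne_top hUη.le
    simp at c1
    linarith
  have b1 : ∫ x, G x ∂μ ≤ α.toReal + η / 2 := by
    have c1 : ∫ x, G x ∂μ ≤ ∫ x, Kᶜ.indicator (fun _ => (1 : ℝ)) x ∂μ := by
      apply integral_mono (integ ⟨G, hGc⟩ μ)
        ((integrable_const _).indicator hK.measurableSet.compl)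
      intro x
      by_cases hx : x ∈ K
      · have h5 : G x = 0 := by
          have h6 : ∑ i, (1 - k (x + ((σ * w i : ℝ) : Circ))) = 0 := by
            apply Finset.sum_eq_zero
            intro i _
            have : k (x + ((σ * w i : ℝ) : Circ)) = 1 := hk1 (by
              rw [hL, mem_iUnion]; exact ⟨i, by simp [hx]⟩)
            rw [this]; norm_num
          show min 1 _ = (0 : ℝ)
          rw [h6]; norm_num
        show G x ≤ Kᶜ.indicator (fun _ => (1 : ℝ)) x
        rw [h5]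
        exact indicator_nonneg (fun _ _ => zero_le_one) x
      · have h6 : Kᶜ.indicator (fun _ => (1 : ℝ)) x = 1 := indicator_of_mem hx _
        show G x ≤ Kᶜ.indicator (fun _ => (1 : ℝ)) x
        rw [h6]
        exact min_le_left _ _
    rw [integral_indicator_const _ hK.measurableSet.compl] at c1
    have c2 : μ Kᶜ ≤ ENNReal.ofReal (η / 2) + α := by
      have hsub : Kᶜ ⊆ s ∪ (sᶜ \ K) := by
        intro x hx
        by_cases hxs : x ∈ s
        · exact Or.inl hxs
        · exact Or.inr ⟨hxs, hx⟩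
      calc μ Kᶜ = (μ.singularPart volume) Kᶜ + α * volume Kᶜ := by
            conv_lhs => rw [hdec]
            simp
        _ ≤ ENNReal.ofReal (η / 2) + α * 1 := by
            gcongr
            · calc (μ.singularPart volume) Kᶜ ≤ (μ.singularPart volume) (s ∪ (sᶜ \ K)) :=
                    measure_mono hsub
                _ ≤ (μ.singularPart volume) s + (μ.singularPart volume) (sᶜ \ K) :=
                    measure_union_le _ _
                _ ≤ ENNReal.ofReal (η / 2) := by rw [hs1, zero_add]; exact hKη.le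
            · exact prob_le_one
        _ = _ := by rw [mul_one]
    have c3 : μ.real Kᶜ ≤ η / 2 + α.toReal := by
      rw [Measure.real, ← ENNReal.toReal_ofReal (by linarith : 0 ≤ η / 2),
        ← ENNReal.toReal_add ENNReal.ofReal_ne_top hαt]
      exact ENNReal.toReal_mono (ENNReal.add_ne_top.2 ⟨ENNReal.ofReal_ne_top, hαt⟩) c2
    simp at c1
    linarith
  simp only [ContinuousMap.coe_mk] at hov
  linarith

lemma coupling_ineqJ {μ ν : Measure Circ} [IsProbabilityMeasure μ] [IsProbabilityMeasure ν]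
    {S : ℕ} (hμS : μ.map (fun x => S • x) = μ) (hνS : ν.map (fun x => S • x) = ν)
    {ρ : Measure (Circ × Circ)} [IsFiniteMeasure ρ] (h1 : ρ.map Prod.fst ≤ μ)
    (h2 : ρ.map Prod.snd ≤ ν) {a b : ℤ} {J : ℕ} {w : Fin J → Circ} {r ω : ℝ} (g h : C(Circ, ℝ))
    (hg : ∀ x, 0 ≤ g x) (hh : ∀ x, 0 ≤ h x) (hgh : ∀ x i, 1 ≤ g x + h (x + w i))
    (hω : ∀ x y, dist x y < r → dist (h x) (h y) < ω)
    (hρ : ∀ᵐ z ∂ρ, ∃ i, dist (b • S • z.2) (a • S • z.1 + w i) < r) :
    (1 - ω) * ρ.real univ ≤ ∫ x, g (a • x) ∂μ + ∫ x, h (b • x) ∂ν := by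
  let G : C(Circ, ℝ) := ⟨fun x => g (a • S • x), by fun_prop⟩
  let H : C(Circ, ℝ) := ⟨fun x => h (b • S • x), by fun_prop⟩
  have e1 : ∫ x, g (a • x) ∂μ = ∫ x, G x ∂μ := by
    conv_lhs => rw [← hμS]
    rw [integral_map (meas_ns S).aemeasurable
      (by fun_prop : Continuous fun x : Circ => g (a • x)).aestronglyMeasurable]
    rfl
  have e2 : ∫ x, h (b • x) ∂ν = ∫ x, H x ∂ν := by
    conv_lhs => rw [← hνS]
    rw [integral_map (meas_ns S).aemeasurable
      (by fun_prop : Continuous fun x : Circ => h (b • x)).aestronglyMeasurable]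
    rfl
  have a1 : ∫ x, G x ∂(ρ.map Prod.fst) ≤ ∫ x, G x ∂μ :=
    integral_mono_measure h1 (ae_of_all _ fun x => hg _) (integ G μ)
  have a2 : ∫ x, H x ∂(ρ.map Prod.snd) ≤ ∫ x, H x ∂ν :=
    integral_mono_measure h2 (ae_of_all _ fun x => hh _) (integ H ν)
  rw [integral_map measurable_fst.aemeasurable G.continuous.aestronglyMeasurable] at a1
  rw [integral_map measurable_snd.aemeasurable H.continuous.aestronglyMeasurable] at a2
  have i1 : Integrable (fun z : Circ × Circ => G z.1) ρ :=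
    (G.continuous.comp continuous_fst).integrable_of_hasCompactSupport
      (HasCompactSupport.of_compactSpace _)
  have i2 : Integrable (fun z : Circ × Circ => H z.2) ρ :=
    (H.continuous.comp continuous_snd).integrable_of_hasCompactSupport
      (HasCompactSupport.of_compactSpace _)
  have a3 : (1 - ω) * ρ.real univ ≤ ∫ z, (G z.1 + H z.2) ∂ρ := by
    have h0 : (1 - ω) * ρ.real univ = ∫ _z, (1 - ω) ∂ρ := by simp [mul_comm]
    rw [h0]
    apply integral_mono_ae (integrable_const _) (i1.add i2)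
    filter_upwards [hρ] with z hz
    obtain ⟨i, hz⟩ := hz
    have h4 := hω _ _ hz
    rw [Real.dist_eq, abs_lt] at h4
    have h5 := hgh (a • S • z.1) i
    show (1 - ω : ℝ) ≤ g (a • S • z.1) + h (b • S • z.2)
    linarith [h4.1]
  rw [integral_add i1 i2] at a3
  rw [e1, e2]
  exact a3.trans (add_le_add a1 a2)

lemma norm_coe_le (x : ℝ) : ‖(x : Circ)‖ ≤ |x| := by
  have h := UnitAddCircle.norm_eq (x := x)
  have h2 := round_le x 0
  simp only [Int.cast_zero, sub_zero] at h2
  exact (le_of_eq h).trans h2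

/-- Couplings at a small scale with small relative error. -/
theorem nearJ {p q : ℕ} (hp : 2 ≤ p) (hq : 2 ≤ q) (hirr : Irrational (Real.log p / Real.log q))
    {a : ℤ} (ha : a ≠ 0) (b : ℤ) (J : ℕ) (K : ℝ) (f : C(Circ, ℝ)) (hf : ∀ x, 0 ≤ f x) {ε : ℝ}
    (hε : 0 < ε) :
    ∃ η : ℝ, 0 < η ∧ ∃ t₀ : ℝ, 0 < t₀ ∧
      ∀ μ ν : Measure Circ, IsProbabilityMeasure μ → IsProbabilityMeasure ν →
      MeasurePreserving (fun x : Circ => p • x) μ μ →
      MeasurePreserving (fun x : Circ => q • x) μ μ →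
      MeasurePreserving (fun x : Circ => p • x) ν ν →
      MeasurePreserving (fun x : Circ => q • x) ν ν →
      ∀ t : ℝ, 0 < t → t < t₀ → ∀ u : Fin J → ℝ, (∀ i, t ≤ u i ∧ u i ≤ K * t) →
      ∀ ρ : Measure (Circ × Circ), ρ.map Prod.fst ≤ μ → ρ.map Prod.snd ≤ ν →
      (∀ᵐ z ∂ρ, ∃ i, ∃ v : ℝ, u i ≤ v ∧ v ≤ (1 + η) * u i ∧ b • z.2 - a • z.1 = (v : Circ)) →
      ρ.real univ * (∫ x, f x) - ε ≤ ∫ x, f x ∂μ := by
  by_contra hcon
  have hcon' : ∀ k : ℕ, ∃ μ ν : Measure Circ, IsProbabilityMeasure μ ∧ IsProbabilityMeasure ν ∧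
      MeasurePreserving (fun x : Circ => p • x) μ μ ∧
      MeasurePreserving (fun x : Circ => q • x) μ μ ∧
      MeasurePreserving (fun x : Circ => p • x) ν ν ∧
      MeasurePreserving (fun x : Circ => q • x) ν ν ∧
      ∃ t : ℝ, 0 < t ∧ t < 1 / ((k : ℝ) + 1) ∧ ∃ u : Fin J → ℝ, (∀ i, t ≤ u i ∧ u i ≤ K * t) ∧
      ∃ ρ : Measure (Circ × Circ), ρ.map Prod.fst ≤ μ ∧ ρ.map Prod.snd ≤ ν ∧
      (∀ᵐ z ∂ρ, ∃ i, ∃ v : ℝ, u i ≤ v ∧ v ≤ (1 + 1 / ((k : ℝ) + 1)) * u i ∧
        b • z.2 - a • z.1 = (v : Circ)) ∧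
      ∫ x, f x ∂μ < ρ.real univ * (∫ x, f x) - ε := by
    intro k
    by_contra hc
    apply hcon
    refine ⟨1 / ((k : ℝ) + 1), by positivity, 1 / ((k : ℝ) + 1), by positivity, ?_⟩
    intro μ ν hμ hν h1 h2 h3 h4 t ht ht2 u hu ρ h5 h6 h7
    by_contra h8
    exact hc ⟨μ, ν, hμ, hν, h1, h2, h3, h4, t, ht, ht2, u, hu, ρ, h5, h6, h7, not_le.1 h8⟩
  choose μ ν hμ hν hμp hμq hνp hνq t ht0 ht1 u hu ρ hρ1 hρ2 hρ3 hlt using hcon'
  have hρu : ∀ k, ρ k univ ≤ 1 := by
    intro k
    have h4 := hρ1 k univ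
    rw [Measure.map_apply measurable_fst MeasurableSet.univ] at h4
    have h5 := hμ k
    simpa using h4
  have hρf : ∀ k, IsFiniteMeasure (ρ k) := fun k => ⟨(hρu k).trans_lt ENNReal.one_lt_top⟩
  have hc1 : ∀ k, (ρ k).real univ ≤ 1 := by
    intro k
    rw [Measure.real]
    exact ENNReal.toReal_le_of_le_ofReal zero_le_one (by simpa using hρu k)
  let l : Filter ℕ := (hyperfilter ℕ : Filter ℕ)
  let m : ℕ → PM := fun k => ⟨μ k, hμ k⟩
  let n : ℕ → PM := fun k => ⟨ν k, hν k⟩
  let d : ℕ → Icc (0 : ℝ) 1 := fun k => ⟨(ρ k).real univ, measureReal_nonneg, hc1 k⟩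
  let w' : Fin J → ℕ → Icc (1 : ℝ) K := fun i k => ⟨u k i / t k, by
    rw [le_div_iff₀ (ht0 k), one_mul]; exact (hu k i).1, by
    rw [div_le_iff₀ (ht0 k)]; exact (hu k i).2⟩
  obtain ⟨m0, hm⟩ : ∃ m0 : PM, Tendsto m l (𝓝 m0) :=
    ⟨_, ((hyperfilter ℕ).map m).le_nhds_lim⟩
  obtain ⟨n0, hn⟩ : ∃ n0 : PM, Tendsto n l (𝓝 n0) :=
    ⟨_, ((hyperfilter ℕ).map n).le_nhds_lim⟩
  obtain ⟨d0, hd⟩ : ∃ d0 : Icc (0 : ℝ) 1, Tendsto d l (𝓝 d0) :=
    ⟨_, ((hyperfilter ℕ).map d).le_nhds_lim⟩
  have hwex : ∀ i, ∃ w : Icc (1 : ℝ) K, Tendsto (w' i) l (𝓝 w) := fun i =>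
    ⟨_, ((hyperfilter ℕ).map (w' i)).le_nhds_lim⟩
  choose w hw using hwex
  have hd' : Tendsto (fun k => (ρ k).real univ) l (𝓝 (d0 : ℝ)) :=
    (continuous_subtype_val.tendsto _).comp hd
  have hw2 : ∀ i, Tendsto (fun k => u k i / t k) l (𝓝 (w i : ℝ)) := fun i =>
    (continuous_subtype_val.tendsto _).comp (hw i)
  have hm0 : MeasurePreserving (fun x : Circ => p • x) (m0 : Measure Circ) m0 :=
    inv_limit hm (fun i => hμp i)
  have hovl : ∀ σ : ℝ, 0 < σ → σ < 1 → OvJ (d0 : ℝ) ((m0 : Measure Circ).map fun x => a • x)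
      ((n0 : Measure Circ).map fun x => b • x) (fun i => ((σ * w i : ℝ) : Circ)) := by
    intro σ hσ0 hσ1 g h hg hh hgh
    rw [integral_map (meas_zs a).aemeasurable g.continuous.aestronglyMeasurable,
      integral_map (meas_zs b).aemeasurable h.continuous.aestronglyMeasurable]
    have l1 := tendsto_shift g a hm (tendsto_const_nhds (x := (0 : Circ)))
    have l2 := tendsto_shift h b hn (tendsto_const_nhds (x := (0 : Circ)))
    simp only [add_zero] at l1 l2
    apply le_of_forall_pos_le_add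
    intro ω hω
    have huc : UniformContinuous (fun x : Circ => h x) :=
      CompactSpace.uniformContinuous_of_continuous h.continuous
    obtain ⟨r, hr0, hr⟩ := Metric.uniformContinuous_iff.1 huc ω hω
    have hr2 : 0 < r / 2 := by positivity
    have hcont : Tendsto (fun θ : ℝ => |K| * ((1 + θ) * Real.exp θ - 1)) (𝓝 0) (𝓝 0) := by
      have h1 : Continuous (fun θ : ℝ => |K| * ((1 + θ) * Real.exp θ - 1)) := by fun_prop
      have h2 := h1.tendsto 0
      simpa using h2
    obtain ⟨θ, hθ0, hθ⟩ : ∃ θ : ℝ, 0 < θ ∧ |K| * ((1 + θ) * Real.exp θ - 1) < r / 2 := by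
      have h1 := (hcont.eventually (gt_mem_nhds hr2))
      rw [Metric.eventually_nhds_iff] at h1
      obtain ⟨e, he, he2⟩ := h1
      refine ⟨e / 2, by positivity, he2 ?_⟩
      rw [Real.dist_eq, sub_zero, abs_of_pos (by positivity)]; linarith
    obtain ⟨X0, hX0, hX⟩ := gap hp hq hirr hθ0
    have hwev : ∀ᶠ k in l, ∀ i, |u k i / t k - w i| < r / 2 := by
      rw [eventually_all]
      intro i
      have := Metric.tendsto_nhds.1 (hw2 i) (r / 2) hr2
      filter_upwards [this] with k hk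
      rwa [Real.dist_eq] at hk
    have hev : ∀ᶠ k in l, (1 - ω) * (ρ k).real univ ≤
        ∫ x, g (a • x) ∂(m k : Measure Circ) + ∫ x, h (b • x) ∂(n k : Measure Circ) := by
      have hk1 : ∀ᶠ k : ℕ in atTop, 1 / ((k : ℝ) + 1) < min θ (σ / X0) :=
        (tendsto_order.1 tendsto_one_div_add_atTop_nhds_zero_nat).2 _
          (lt_min hθ0 (div_pos hσ0 hX0))
      filter_upwards [Nat.hyperfilter_le_atTop hk1, hwev] with k hk hwk
      have hkθ : 1 / ((k : ℝ) + 1) < θ := hk.trans_le (min_le_left _ _)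
      have hkv : t k < σ / X0 := (ht1 k).trans (hk.trans_le (min_le_right _ _))
      have htk := ht0 k
      have hXk : X0 ≤ σ / t k := by
        rw [le_div_iff₀ htk]; rw [lt_div_iff₀ hX0] at hkv; linarith
      obtain ⟨i0, j0, hS1, hS2⟩ := hX _ hXk
      have hμS : (μ k).map (fun x : Circ => (p ^ i0 * q ^ j0) • x) = μ k := by
        rw [map_pq (hμp k), map_pow_inv (hμq k)]
      have hνS : (ν k).map (fun x : Circ => (p ^ i0 * q ^ j0) • x) = ν k := by
        rw [map_pq (hνp k), map_pow_inv (hνq k)]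
      have hμk := hμ k
      have hνk := hν k
      have hρk := hρf k
      refine coupling_ineqJ hμS hνS (hρ1 k) (hρ2 k) g h hg hh hgh hr ?_
      filter_upwards [hρ3 k] with z hz
      obtain ⟨i, v, hv1, hv2, hv3⟩ := hz
      refine ⟨i, ?_⟩
      set S : ℕ := p ^ i0 * q ^ j0 with hS
      have hbz : b • S • z.2 = a • S • z.1 + (((S : ℝ) * v : ℝ) : Circ) := by
        have h1 : b • z.2 = a • z.1 + (v : Circ) := by rw [← hv3]; abel
        have h2 : (((S : ℝ) * v : ℝ) : Circ) = S • (v : Circ) := by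
          rw [← nsmul_eq_mul, AddCircle.coe_nsmul]
        rw [h2, smul_comm b S z.2, h1, smul_add, smul_comm S a z.1]
      rw [hbz, dist_eq_norm]
      have h3 : a • S • z.1 + (((S : ℝ) * v : ℝ) : Circ) - (a • S • z.1 + ((σ * w i : ℝ) : Circ)) =
          (((S : ℝ) * v - σ * w i : ℝ) : Circ) := by
        rw [AddCircle.coe_sub]; abel
      rw [h3]
      refine (norm_coe_le _).trans_lt ?_
      have hSpos : (0 : ℝ) < S := lt_of_lt_of_le (div_pos hσ0 htk) hS1
      set y := u k i / t k with hy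
      have hyu : u k i = y * t k := by rw [hy]; field_simp
      have hy1 : 1 ≤ y := by rw [hy, le_div_iff₀ htk, one_mul]; exact (hu k i).1
      have hyK : y ≤ |K| := le_trans (by rw [hy, div_le_iff₀ htk]; exact (hu k i).2) (le_abs_self K)
      have h4 : σ ≤ S * t k := by rwa [div_le_iff₀ htk] at hS1
      have h5 : S * t k ≤ σ * Real.exp θ := by
        have h6 := mul_le_mul_of_nonneg_right hS2 htk.le
        have h7 : σ / t k * Real.exp θ * t k = σ * Real.exp θ := by field_simp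
        rw [h7] at h6
        exact h6
      have h6 : σ * y ≤ S * v := by
        calc σ * y ≤ (S * t k) * y := mul_le_mul_of_nonneg_right h4 (by linarith)
          _ = S * (y * t k) := by ring
          _ ≤ S * v := by rw [← hyu]; exact mul_le_mul_of_nonneg_left hv1 hSpos.le
      have h7 : S * v ≤ σ * y * ((1 + θ) * Real.exp θ) := by
        calc S * v ≤ S * ((1 + 1 / ((k : ℝ) + 1)) * u k i) :=
              mul_le_mul_of_nonneg_left hv2 hSpos.le
          _ = (1 + 1 / ((k : ℝ) + 1)) * ((S * t k) * y) := by rw [hyu]; ring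
          _ ≤ (1 + θ) * ((σ * Real.exp θ) * y) := by
              apply mul_le_mul (by linarith) (mul_le_mul_of_nonneg_right h5 (by linarith))
                (by positivity) (by positivity)
          _ = _ := by ring
      have h8 : 1 ≤ (1 + θ) * Real.exp θ := by
        have := Real.one_le_exp hθ0.le
        nlinarith
      have h9 : |(S : ℝ) * v - σ * y| ≤ |K| * ((1 + θ) * Real.exp θ - 1) := by
        rw [abs_of_nonneg (by linarith)]
        have h10 : σ * y ≤ |K| := by
          calc σ * y ≤ 1 * y := mul_le_mul_of_nonneg_right hσ1.le (by linarith)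
            _ ≤ |K| := by linarith
        have h11 : 0 ≤ (1 + θ) * Real.exp θ - 1 := by linarith
        have h12 := mul_le_mul_of_nonneg_right h10 h11
        nlinarith
      have h10 : |σ * y - σ * w i| < r / 2 := by
        rw [← mul_sub, abs_mul, abs_of_pos hσ0]
        calc σ * |y - w i| ≤ 1 * |y - w i| := mul_le_mul_of_nonneg_right hσ1.le (abs_nonneg _)
          _ = |y - w i| := one_mul _
          _ < r / 2 := hwk i
      calc |(S : ℝ) * v - σ * w i| = |((S : ℝ) * v - σ * y) + (σ * y - σ * w i)| := by ring_nf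
        _ ≤ |(S : ℝ) * v - σ * y| + |σ * y - σ * w i| := abs_add_le _ _
        _ < r / 2 + r / 2 := add_lt_add_of_le_of_lt (h9.trans hθ.le) h10
        _ = r := by ring
    have h9 : (1 - ω) * (d0 : ℝ) ≤ ∫ x, g (a • x) ∂(m0 : Measure Circ) +
        ∫ x, h (b • x) ∂(n0 : Measure Circ) :=
      le_of_tendsto_of_tendsto (hd'.const_mul _) (l1.add l2) hev
    have h10 : (d0 : ℝ) ≤ 1 := d0.2.2
    have h11 : 0 ≤ (d0 : ℝ) := d0.2.1
    nlinarith
  have hP : IsProbabilityMeasure ((m0 : Measure Circ).map fun x => a • x) :=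
    Measure.isProbabilityMeasure_map (meas_zs a).aemeasurable
  have hQ : IsProbabilityMeasure ((n0 : Measure Circ).map fun x => b • x) :=
    Measure.isProbabilityMeasure_map (meas_zs b).aemeasurable
  have hwpos : ∀ i, 0 < (w i : ℝ) := fun i => lt_of_lt_of_le zero_lt_one (w i).2.1
  have h1 := vol_le_of_map hp ha hm0 (vol_leJ hp (map_inv a hm0) hwpos hovl)
  have h2 : (d0 : ℝ) * ∫ x, f x ≤ ∫ x, f x ∂(m0 : Measure Circ) := by
    have h3 := integral_mono_measure h1 (ae_of_all _ hf) (integ f (m0 : Measure Circ))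
    rw [integral_smul_measure, ENNReal.toReal_ofReal d0.2.1] at h3
    simpa using h3
  have h4 : Tendsto (fun k => ∫ x, f x ∂(m k : Measure Circ)) l
      (𝓝 (∫ x, f x ∂(m0 : Measure Circ))) :=
    ProbabilityMeasure.tendsto_iff_forall_integral_tendsto.1 hm
      (BoundedContinuousFunction.mkOfCompact f)
  have h5 : ∫ x, f x ∂(m0 : Measure Circ) ≤ (d0 : ℝ) * (∫ x, f x) - ε :=
    le_of_tendsto_of_tendsto' h4 ((hd'.mul_const _).sub_const _) fun k => (hlt k).le
  linarith

end Pool.Agent.V11299.OV
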