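import Mathlib
import Pool.Agent.W765.Uni
import Pool.Agent.H847R3.XpXqF

set_option autoImplicit false

open MeasureTheory Filter Topology Set

namespace Pool.Agent.V11299.OV

open Pool.Agent.H705R2

/-- Dual form of: a part of mass `c` of `μ` can be translated by `t` into `ν`. -/
def Ov (c : ℝ) (μ ν : Measure Circ) (t : Circ) : Prop :=
  ∀ g h : C(Circ, ℝ), (∀ x, 0 ≤ g x) → (∀ x, 0 ≤ h x) → (∀ x, 1 ≤ g x + h x) →
    c ≤ ∫ x, g (x + t) ∂μ + ∫ x, h x ∂ν

lemma integ (k : C(Circ, ℝ)) (m : Measure Circ) [IsFiniteMeasure m] : Integrable (fun x => k x) m :=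
  k.continuous.integrable_of_hasCompactSupport (HasCompactSupport.of_compactSpace k)

lemma meas_zs (a : ℤ) : Measurable (fun x : Circ => a • x) := (continuous_zsmul a).measurable

lemma meas_ns (a : ℕ) : Measurable (fun x : Circ => a • x) := (continuous_nsmul a).measurable

lemma ov_of_coupling {μ ν : Measure Circ} {ρ : Measure (Circ × Circ)} [IsProbabilityMeasure μ]
    [IsProbabilityMeasure ν] [IsFiniteMeasure ρ] {a b : ℤ} {t : Circ}
    (h1 : ρ.map Prod.fst ≤ μ) (h2 : ρ.map Prod.snd ≤ ν)
    (h3 : ∀ᵐ z ∂ρ, b • z.2 - a • z.1 = t) :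
    Ov (ρ.real univ) (μ.map fun x => a • x) (ν.map fun x => b • x) t := by
  intro g h hg hh hgh
  rw [integral_map (meas_zs a).aemeasurable
    (by fun_prop : Continuous fun x : Circ => g (x + t)).aestronglyMeasurable,
    integral_map (meas_zs b).aemeasurable h.continuous.aestronglyMeasurable]
  let G : C(Circ, ℝ) := ⟨fun x => g (a • x + t), by fun_prop⟩
  let H : C(Circ, ℝ) := ⟨fun x => h (b • x), by fun_prop⟩
  have a1 : ∫ x, G x ∂(ρ.map Prod.fst) ≤ ∫ x, G x ∂μ :=
    integral_mono_measure h1 (ae_of_all _ fun x => hg _) (integ G μ)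
  have a2 : ∫ x, H x ∂(ρ.map Prod.snd) ≤ ∫ x, H x ∂ν :=
    integral_mono_measure h2 (ae_of_all _ fun x => hh _) (integ H ν)
  rw [integral_map measurable_fst.aemeasurable G.continuous.aestronglyMeasurable] at a1
  rw [integral_map measurable_snd.aemeasurable H.continuous.aestronglyMeasurable] at a2
  have i1 : Integrable (fun z : Circ × Circ => G z.1) ρ :=
    (G.continuous.comp continuous_fst).integrable_of_hasCompactSupport
      (HasCompactSupport.of_compactSpace _)
  have i2 : Integrable (fun z : Circ × Circ => H z.2) ρ :=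
    (H.continuous.comp continuous_snd).integrable_of_hasCompactSupport
      (HasCompactSupport.of_compactSpace _)
  have a3 : ρ.real univ ≤ ∫ z, (G z.1 + H z.2) ∂ρ := by
    have h0 : ρ.real univ = ∫ _z, (1 : ℝ) ∂ρ := by simp
    rw [h0]
    apply integral_mono_ae (integrable_const _) (i1.add i2)
    filter_upwards [h3] with z hz
    have h4 : a • z.1 + t = b • z.2 := by rw [← hz]; abel
    show (1 : ℝ) ≤ g (a • z.1 + t) + h (b • z.2)
    rw [h4]
    exact hgh _
  rw [integral_add i1 i2] at a3
  exact a3.trans (add_le_add a1 a2)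

lemma ov_nsmul {c : ℝ} {μ ν : Measure Circ} {t : Circ} (h : Ov c μ ν t) (s : ℕ) :
    Ov c (μ.map (fun x => s • x)) (ν.map (fun x => s • x)) (s • t) := by
  intro g k hg hk hgk
  rw [integral_map (meas_ns s).aemeasurable
    (by fun_prop : Continuous fun x : Circ => g (x + s • t)).aestronglyMeasurable,
    integral_map (meas_ns s).aemeasurable k.continuous.aestronglyMeasurable]
  have h1 := h ⟨fun x => g (s • x), by fun_prop⟩ ⟨fun x => k (s • x), by fun_prop⟩ (fun _ => hg _)
    (fun _ => hk _) (fun _ => hgk _)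
  simpa [smul_add] using h1

lemma exists_null_shift {ν : Measure Circ} [IsProbabilityMeasure ν] {E : Set Circ}
    (hE : MeasurableSet E) (h0 : (volume : Measure Circ) E = 0) :
    ∃ t : Circ, ν ((fun x => x - t) ⁻¹' E) = 0 := by
  have hS : MeasurableSet {z : Circ × Circ | z.2 - z.1 ∈ E} := (measurable_snd.sub measurable_fst) hE
  have h1 : ((volume : Measure Circ).prod ν) {z : Circ × Circ | z.2 - z.1 ∈ E} = 0 := by
    rw [Measure.prod_apply_symm hS]
    have h2 : ∀ y : Circ, (volume : Measure Circ) ((fun x => (x, y)) ⁻¹' {z : Circ × Circ | z.2 - z.1 ∈ E}) = 0 := by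
      intro y
      have h3 := (Measure.measurePreserving_sub_left (volume : Measure Circ) y).measure_preimage
        hE.nullMeasurableSet
      rw [h0] at h3
      exact h3
    rw [lintegral_congr h2]; simp
  have h2 := (Measure.measure_prod_null hS).1 h1
  exact h2.exists

/-- If the overlap is at least `c` for all translations then the first measure, once invariant under
`x ↦ p x`, contains `c` times Lebesgue measure. -/
lemma vol_le {p : ℕ} (hp : 2 ≤ p) {μ ν : Measure Circ} [IsProbabilityMeasure μ]
    [IsProbabilityMeasure ν] (hμp : MeasurePreserving (fun x : Circ => p • x) μ μ) {c : ℝ}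
    (h : ∀ t, Ov c μ ν t) : ENNReal.ofReal c • (volume : Measure Circ) ≤ μ := by
  set g := μ.rnDeriv (volume : Measure Circ) with hg
  have herg : Ergodic (fun x : Circ => p • x) (volume : Measure Circ) :=
    AddCircle.ergodic_nsmul (by omega)
  have hinv : g ∘ (fun x : Circ => p • x) =ᵐ[volume] g :=
    hμp.rnDeriv_comp_aeEq herg.toMeasurePreserving
  obtain ⟨α, hα⟩ := herg.ae_eq_const_of_ae_eq_comp_ae
    (Measure.measurable_rnDeriv μ _).aestronglyMeasurable hinv
  have hwd : (volume : Measure Circ).withDensity g = α • volume := by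
    rw [withDensity_congr_ae hα]
    exact withDensity_const α
  have hdec : μ = μ.singularPart volume + α • volume := by
    conv_lhs => rw [Measure.haveLebesgueDecomposition_add μ (volume : Measure Circ)]
    rw [hwd]
  have hαle : α • (volume : Measure Circ) ≤ μ := by
    conv_rhs => rw [hdec]
    exact Measure.le_add_left le_rfl
  have hα1 : α ≤ 1 := by
    have := hαle univ
    simpa using this
  have hαt : α ≠ ⊤ := (hα1.trans_lt ENNReal.one_lt_top).ne
  obtain ⟨s, hs, hs1, hs2⟩ := μ.mutuallySingular_singularPart (volume : Measure Circ)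
  obtain ⟨t, ht⟩ := exists_null_shift (ν := ν) hs.compl hs2
  suffices hc : c ≤ α.toReal by
    calc ENNReal.ofReal c • (volume : Measure Circ) ≤ α • volume := by
          refine Measure.le_iff.2 fun A _ => ?_
          simp only [Measure.smul_apply, smul_eq_mul]
          gcongr
          exact (ENNReal.ofReal_le_iff_le_toReal hαt).2 hc
      _ ≤ μ := hαle
  apply le_of_forall_pos_le_add
  intro η hη
  have hη2 : ENNReal.ofReal (η / 2) ≠ 0 := by
    simp only [ne_eq, ENNReal.ofReal_eq_zero, not_le]; linarith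
  obtain ⟨K, hKs, hK, hKη⟩ := hs.compl.exists_isCompact_sdiff_lt
    (measure_ne_top (μ.singularPart (volume : Measure Circ)) _) hη2
  set L : Set Circ := (fun x => x - t) ⁻¹' K with hL
  have hLc : IsClosed L := hK.isClosed.preimage (by fun_prop)
  have hL0 : ν L = 0 := measure_mono_null (preimage_mono hKs) ht
  obtain ⟨U, hLU, hU, hUη⟩ := L.exists_isOpen_lt_of_lt (μ := ν) (ENNReal.ofReal (η / 2))
    (by rw [hL0]; exact pos_iff_ne_zero.2 hη2)
  obtain ⟨k, hk0, hk1, hk⟩ := exists_continuous_zero_one_of_isClosed hU.isClosed_compl hLc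
    (disjoint_compl_left_iff_subset.2 hLU)
  have hov := h t ⟨fun x => 1 - k x, by fun_prop⟩ k (fun x => by have := (hk x).2; simp; linarith)
    (fun x => (hk x).1) (fun x => by simp)
  have b2 : ∫ x, k x ∂ν ≤ η / 2 := by
    have c1 : ∫ x, k x ∂ν ≤ ∫ x, U.indicator (fun _ => (1 : ℝ)) x ∂ν := by
      apply integral_mono (integ k ν) ((integrable_const _).indicator hU.measurableSet)
      intro x
      by_cases hx : x ∈ U
      · simp only [indicator_of_mem hx]; exact (hk x).2
      · simp only [indicator_of_notMem hx]; exact (hk0 hx).le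
    rw [integral_indicator_const _ hU.measurableSet] at c1
    have c2 : ν.real U ≤ η / 2 := by
      rw [Measure.real, ← ENNReal.toReal_ofReal (by linarith : 0 ≤ η / 2)]
      exact ENNReal.toReal_mono ENNReal.ofReal_ne_top hUη.le
    simp at c1
    linarith
  have b1 : ∫ x, (1 - k (x + t)) ∂μ ≤ α.toReal + η / 2 := by
    have c1 : ∫ x, (1 - k (x + t)) ∂μ ≤ ∫ x, Kᶜ.indicator (fun _ => (1 : ℝ)) x ∂μ := by
      apply integral_mono (integ ⟨fun x => 1 - k (x + t), by fun_prop⟩ μ)
        ((integrable_const _).indicator hK.measurableSet.compl)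
      intro x
      by_cases hx : x ∈ K
      · have : k (x + t) = 1 := hk1 (by simp [hL, hx])
        simp [this, hx]
      · have h5 : 0 ≤ k (x + t) := (hk _).1
        have h6 : Kᶜ.indicator (fun _ => (1 : ℝ)) x = 1 := indicator_of_mem hx _
        show 1 - k (x + t) ≤ Kᶜ.indicator (fun _ => (1 : ℝ)) x
        rw [h6]; linarith
    rw [integral_indicator_const _ hK.measurableSet.compl] at c1
    have c2 : μ Kᶜ ≤ ENNReal.ofReal (η / 2) + α := by
      have hsub : Kᶜ ⊆ s ∪ (sᶜ \ K) := by
        intro x hx
        by_cases hxs : x ∈ s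
        · exact Or.inl hxs
        · exact Or.inr ⟨hxs, hx⟩
      calc μ Kᶜ = (μ.singularPart volume) Kᶜ + α * volume Kᶜ := by
            conv_lhs => rw [hdec]
            simp
        _ ≤ ENNReal.ofReal (η / 2) + α * 1 := by
            gcongr
            · calc (μ.singularPart volume) Kᶜ ≤ (μ.singularPart volume) (s ∪ (sᶜ \ K)) :=
                    measure_mono hsub
                _ ≤ (μ.singularPart volume) s + (μ.singularPart volume) (sᶜ \ K) :=
                    measure_union_le _ _
                _ ≤ ENNReal.ofReal (η / 2) := by rw [hs1, zero_add]; exact hKη.le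
            · exact prob_le_one
        _ = _ := by rw [mul_one]
    have c3 : μ.real Kᶜ ≤ η / 2 + α.toReal := by
      rw [Measure.real, ← ENNReal.toReal_ofReal (by linarith : 0 ≤ η / 2),
        ← ENNReal.toReal_add ENNReal.ofReal_ne_top hαt]
      exact ENNReal.toReal_mono (ENNReal.add_ne_top.2 ⟨ENNReal.ofReal_ne_top, hαt⟩) c2
    simp at c1
    linarith
  simp only [ContinuousMap.coe_mk] at hov
  linarith

end Pool.Agent.V11299.OV
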