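import Pool.Agent.V11299.OV.Core

set_option autoImplicit false

open MeasureTheory Filter Topology Set

namespace Pool.Agent.V11299.OV

open Pool.Agent.H705R2

abbrev PM : Type := ProbabilityMeasure Circ

lemma tendsto_shift {ι : Type} {l : Filter ι} (g : C(Circ, ℝ)) (a : ℤ) {m : ι → PM} {m0 : PM}
    (hm : Tendsto m l (𝓝 m0)) {t : ι → Circ} {τ : Circ} (ht : Tendsto t l (𝓝 τ)) :
    Tendsto (fun i => ∫ x, g (a • x + t i) ∂(m i : Measure Circ)) l
      (𝓝 (∫ x, g (a • x + τ) ∂(m0 : Measure Circ))) := by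
  let F : Circ → C(Circ, ℝ) := fun s => ⟨fun x => g (a • x + s), by fun_prop⟩
  have hF : Continuous F := ContinuousMap.continuous_of_continuous_uncurry F
    (by show Continuous (fun z : Circ × Circ => g (a • z.2 + z.1)); fun_prop)
  have h1 : Tendsto (fun i => ‖F (t i) - F τ‖) l (𝓝 0) := by
    have := ((hF.tendsto τ).comp ht)
    exact tendsto_iff_norm_sub_tendsto_zero.1 this
  have h2 : Tendsto (fun i => ∫ x, F τ x ∂(m i : Measure Circ)) l
      (𝓝 (∫ x, F τ x ∂(m0 : Measure Circ))) :=
    ProbabilityMeasure.tendsto_iff_forall_integral_tendsto.1 hm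
      (BoundedContinuousFunction.mkOfCompact (F τ))
  have h3 : Tendsto (fun i => ∫ x, F (t i) x ∂(m i : Measure Circ) -
      ∫ x, F τ x ∂(m i : Measure Circ)) l (𝓝 0) := by
    apply squeeze_zero_norm (fun i => ?_) h1
    rw [← integral_sub (integ _ _) (integ _ _)]
    refine (norm_integral_le_of_norm_le_const (C := ‖F (t i) - F τ‖)
      (ae_of_all _ fun x => (F (t i) - F τ).norm_coe_le_norm x)).trans ?_
    simp
  have h4 := h3.add h2
  simp only [sub_add_cancel, zero_add] at h4
  exact h4

lemma inv_limit {p : ℕ} {ι : Type} {l : Filter ι} [l.NeBot] {m : ι → PM} {m0 : PM}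
    (hm : Tendsto m l (𝓝 m0))
    (hp : ∀ i, MeasurePreserving (fun x : Circ => p • x) (m i : Measure Circ) (m i)) :
    MeasurePreserving (fun x : Circ => p • x) (m0 : Measure Circ) m0 := by
  refine ⟨meas_ns p, ?_⟩
  have : IsProbabilityMeasure ((m0 : Measure Circ).map (fun x : Circ => p • x)) :=
    Measure.isProbabilityMeasure_map (meas_ns p).aemeasurable
  apply ext_of_forall_integral_eq_of_IsFiniteMeasure
  intro f
  rw [integral_map (meas_ns p).aemeasurable f.continuous.aestronglyMeasurable]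
  have h1 := ProbabilityMeasure.tendsto_iff_forall_integral_tendsto.1 hm f
  have h2 := ProbabilityMeasure.tendsto_iff_forall_integral_tendsto.1 hm
    (f.compContinuous ⟨fun x : Circ => p • x, by fun_prop⟩)
  have h3 : ∀ i, ∫ x, f x ∂(m i : Measure Circ) = ∫ x, f (p • x) ∂(m i : Measure Circ) := by
    intro i
    conv_lhs => rw [← (hp i).map_eq]
    rw [integral_map (meas_ns p).aemeasurable f.continuous.aestronglyMeasurable]
  simp only [h3] at h1
  exact tendsto_nhds_unique h2 h1

lemma exists_alpha {p : ℕ} (hp : 2 ≤ p) {μ : Measure Circ} [IsProbabilityMeasure μ]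
    (hμp : MeasurePreserving (fun x : Circ => p • x) μ μ) :
    ∃ α : ENNReal, μ = μ.singularPart volume + α • volume ∧ α ≤ 1 := by
  set g := μ.rnDeriv (volume : Measure Circ) with hg
  have herg : Ergodic (fun x : Circ => p • x) (volume : Measure Circ) :=
    AddCircle.ergodic_nsmul (by omega)
  have hinv : g ∘ (fun x : Circ => p • x) =ᵐ[volume] g :=
    hμp.rnDeriv_comp_aeEq herg.toMeasurePreserving
  obtain ⟨α, hα⟩ := herg.ae_eq_const_of_ae_eq_comp_ae
    (Measure.measurable_rnDeriv μ _).aestronglyMeasurable hinv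
  have hwd : (volume : Measure Circ).withDensity g = α • volume := by
    rw [withDensity_congr_ae hα]
    exact withDensity_const α
  have hdec : μ = μ.singularPart volume + α • volume := by
    conv_lhs => rw [Measure.haveLebesgueDecomposition_add μ (volume : Measure Circ)]
    rw [hwd]
  refine ⟨α, hdec, ?_⟩
  have hαle : α • (volume : Measure Circ) ≤ μ := by
    conv_rhs => rw [hdec]
    exact Measure.le_add_left le_rfl
  have := hαle univ
  simpa using this

lemma map_inv {p : ℕ} {μ : Measure Circ} (a : ℤ)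
    (hμp : MeasurePreserving (fun x : Circ => p • x) μ μ) :
    MeasurePreserving (fun x : Circ => p • x) (μ.map fun x => a • x) (μ.map fun x => a • x) := by
  refine ⟨meas_ns p, ?_⟩
  rw [Measure.map_map (meas_ns p) (meas_zs a)]
  have h1 : (fun x : Circ => p • x) ∘ (fun x : Circ => a • x) =
      (fun x : Circ => a • x) ∘ (fun x : Circ => p • x) := by
    funext x; simp only [Function.comp]; rw [smul_comm]
  rw [h1, ← Measure.map_map (meas_zs a) (meas_ns p), hμp.map_eq]

lemma vol_le_of_map {p : ℕ} (hp : 2 ≤ p) {a : ℤ} (ha : a ≠ 0) {μ : Measure Circ}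
    [IsProbabilityMeasure μ] (hμp : MeasurePreserving (fun x : Circ => p • x) μ μ) {c : ENNReal}
    (h : c • (volume : Measure Circ) ≤ μ.map fun x => a • x) :
    c • (volume : Measure Circ) ≤ μ := by
  obtain ⟨α, hdec, hα⟩ := exists_alpha hp hμp
  have hvol : (volume : Measure Circ).map (fun x => a • x) = volume :=
    (Measure.measurePreserving_zsmul (volume : Measure Circ) ha).map_eq
  have hsing := Pool.Agent.H847R3.XpXq.sing_map ha
    (Measure.mutuallySingular_singularPart μ (volume : Measure Circ))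
  have hm : μ.map (fun x => a • x) =
      (μ.singularPart volume).map (fun x : Circ => a • x) + α • volume := by
    conv_lhs => rw [hdec]
    rw [Measure.map_add _ _ (meas_zs a), Measure.map_smul, hvol]
  obtain ⟨s, hs, hs1, hs2⟩ := hsing
  have hs3 : (volume : Measure Circ) s = 1 := (prob_compl_eq_zero_iff hs).1 hs2
  have h1 := h s
  rw [hm] at h1
  simp only [Measure.smul_apply, Measure.add_apply, smul_eq_mul, hs3, mul_one] at h1
  rw [hs1, zero_add] at h1
  calc c • (volume : Measure Circ) ≤ α • volume := by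
        refine Measure.le_iff.2 fun A _ => ?_
        simp only [Measure.smul_apply, smul_eq_mul]
        gcongr
    _ ≤ μ := by
        conv_rhs => rw [hdec]
        exact Measure.le_add_left le_rfl

lemma exists_net {p : ℕ} (hp : 2 ≤ p) {a : ℤ} (ha : a ≠ 0) (b : ℤ) (f : C(Circ, ℝ))
    (hf : ∀ x, 0 ≤ f x) {ε : ℝ} (hε : 0 < ε) :
    ∃ k : ℕ, ∀ μ ν : Measure Circ, IsProbabilityMeasure μ → IsProbabilityMeasure ν →
      MeasurePreserving (fun x : Circ => p • x) μ μ → ∀ c : ℝ, 0 ≤ c → c ≤ 1 →
      (∀ τ : Circ, ∃ t : Circ, dist t τ < 1 / ((k : ℝ) + 1) ∧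
        Ov c (μ.map fun x => a • x) (ν.map fun x => b • x) t) →
      c * (∫ x, f x) - ε ≤ ∫ x, f x ∂μ := by
  by_contra hcon
  push Not at hcon
  choose μ ν hμ hν hinv c hc0 hc1 hov hlt using hcon
  let l : Filter ℕ := (hyperfilter ℕ : Filter ℕ)
  let m : ℕ → PM := fun k => ⟨μ k, hμ k⟩
  let n : ℕ → PM := fun k => ⟨ν k, hν k⟩
  let d : ℕ → Icc (0 : ℝ) 1 := fun k => ⟨c k, hc0 k, hc1 k⟩
  obtain ⟨m0, hm⟩ : ∃ m0 : PM, Tendsto m l (𝓝 m0) :=
    ⟨_, ((hyperfilter ℕ).map m).le_nhds_lim⟩
  obtain ⟨n0, hn⟩ : ∃ n0 : PM, Tendsto n l (𝓝 n0) :=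
    ⟨_, ((hyperfilter ℕ).map n).le_nhds_lim⟩
  obtain ⟨d0, hd⟩ : ∃ d0 : Icc (0 : ℝ) 1, Tendsto d l (𝓝 d0) :=
    ⟨_, ((hyperfilter ℕ).map d).le_nhds_lim⟩
  have hd' : Tendsto c l (𝓝 (d0 : ℝ)) := (continuous_subtype_val.tendsto _).comp hd
  have hm0 : MeasurePreserving (fun x : Circ => p • x) (m0 : Measure Circ) m0 :=
    inv_limit hm (fun i => hinv i)
  have hovl : ∀ τ, Ov (d0 : ℝ) ((m0 : Measure Circ).map fun x => a • x)
      ((n0 : Measure Circ).map fun x => b • x) τ := by
    intro τ g h hg hh hgh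
    choose t ht1 ht2 using fun k => hov k τ
    have htτ : Tendsto t l (𝓝 τ) := by
      have h1 : Tendsto t atTop (𝓝 τ) := by
        rw [tendsto_iff_dist_tendsto_zero]
        exact squeeze_zero (fun _ => dist_nonneg) (fun k => (ht1 k).le)
          tendsto_one_div_add_atTop_nhds_zero_nat
      exact h1.mono_left Nat.hyperfilter_le_atTop
    have e1 : ∀ (m : Measure Circ) (s : Circ), ∫ x, g (x + s) ∂(m.map fun x => a • x) =
        ∫ x, g (a • x + s) ∂m := fun m s =>
      integral_map (meas_zs a).aemeasurable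
        (by fun_prop : Continuous fun x : Circ => g (x + s)).aestronglyMeasurable
    have e2 : ∀ (m : Measure Circ), ∫ x, h x ∂(m.map fun x => b • x) =
        ∫ x, h (b • x) ∂m := fun m =>
      integral_map (meas_zs b).aemeasurable h.continuous.aestronglyMeasurable
    rw [e1, e2]
    have l1 := tendsto_shift g a hm htτ
    have l2 := tendsto_shift h b hn (tendsto_const_nhds (x := (0 : Circ)))
    simp only [add_zero] at l2
    refine le_of_tendsto_of_tendsto' hd' (l1.add l2) fun k => ?_
    have := ht2 k g h hg hh hgh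
    rw [e1, e2] at this
    exact this
  have hP : IsProbabilityMeasure ((m0 : Measure Circ).map fun x => a • x) :=
    Measure.isProbabilityMeasure_map (meas_zs a).aemeasurable
  have hQ : IsProbabilityMeasure ((n0 : Measure Circ).map fun x => b • x) :=
    Measure.isProbabilityMeasure_map (meas_zs b).aemeasurable
  have h1 := vol_le_of_map hp ha hm0 (vol_le hp (map_inv a hm0) hovl)
  have h2 : (d0 : ℝ) * ∫ x, f x ≤ ∫ x, f x ∂(m0 : Measure Circ) := by
    have h3 := integral_mono_measure h1 (ae_of_all _ hf) (integ f (m0 : Measure Circ))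
    rw [integral_smul_measure, ENNReal.toReal_ofReal d0.2.1] at h3
    simpa using h3
  have h4 : Tendsto (fun k => ∫ x, f x ∂(m k : Measure Circ)) l
      (𝓝 (∫ x, f x ∂(m0 : Measure Circ))) :=
    ProbabilityMeasure.tendsto_iff_forall_integral_tendsto.1 hm
      (BoundedContinuousFunction.mkOfCompact f)
  have h5 : ∫ x, f x ∂(m0 : Measure Circ) ≤ (d0 : ℝ) * (∫ x, f x) - ε :=
    le_of_tendsto_of_tendsto' h4 ((hd'.mul_const _).sub_const _) fun k => (hlt k).le
  linarith

end Pool.Agent.V11299.OV
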